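import Pool.Agent.Helper98.Lang.Defs

/-!
# Packet P8 (INTER) of MP_c307ca_nt: interpolation of the centred power sums
-/

set_option autoImplicit false

open Finset

namespace Pool.Agent.Helper85.Lang

open Pool.Agent.Helper98.Lang

lemma sum_pow_le_NQ (Q n : ℕ) (A : ℕ → Finset ℕ)
    (hA : ∀ d, d ∈ n.divisors → ∀ x ∈ A d, x ∈ n.divisors)
    (h1 : ∀ d ∈ n.divisors, ∀ x ∈ A d, (x : ℝ) ≤ Real.exp 1 * d ∧ (d : ℝ) ≤ Real.exp 1 * x)
    (h2 : ∀ d ∈ n.divisors, ∀ x ∈ A d, ∀ y ∈ A d, (x : ℝ) ≤ Real.exp 1 * y) :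
    ∑ d ∈ n.divisors, (A d).card ^ Q ≤ NQ (Q + 1) n := by
  classical
  have e : ∑ d ∈ n.divisors, (A d).card ^ Q =
      (n.divisors.sigma (fun d => Fintype.piFinset (fun _ : Fin Q => A d))).card := by
    rw [Finset.card_sigma]
    apply Finset.sum_congr rfl
    intro d _
    rw [Fintype.card_piFinset]
    simp
  rw [e]
  unfold NQ
  apply Finset.card_le_card_of_injOn (fun s => (Fin.cons s.1 s.2 : Fin (Q + 1) → ℕ))
  · intro s hs
    have hs' := Finset.mem_sigma.1 (Finset.mem_coe.1 hs)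
    obtain ⟨hd, hf⟩ := hs'
    rw [Fintype.mem_piFinset] at hf
    have hself : ((s.1 : ℕ) : ℝ) ≤ Real.exp 1 * (s.1 : ℕ) := by
      have : (1 : ℝ) ≤ Real.exp 1 := by
        have := Real.add_one_le_exp (1 : ℝ)
        linarith
      nlinarith [Nat.cast_nonneg (α := ℝ) s.1]
    rw [Finset.mem_coe]
    unfold tup
    rw [Finset.mem_filter, Fintype.mem_piFinset]
    refine ⟨?_, ?_⟩
    · intro i
      refine Fin.cases ?_ ?_ i
      · simpa using hd
      · intro j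
        simpa using hA _ hd _ (hf j)
    · intro i j
      refine Fin.cases ?_ ?_ i
      · refine Fin.cases ?_ ?_ j
        · simpa using hself
        · intro j'
          simpa using (h1 _ hd _ (hf j')).2
      · intro i'
        refine Fin.cases ?_ ?_ j
        · simpa using (h1 _ hd _ (hf i')).1
        · intro j'
          simpa using h2 _ hd _ (hf i') _ (hf j')
  · rintro ⟨d, f⟩ _ ⟨d', f'⟩ _ h
    have h' : (Fin.cons d f : Fin (Q + 1) → ℕ) = Fin.cons d' f' := h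
    have h0 := congrFun h' 0
    simp at h0
    subst h0
    have h1 : f = f' := by
      funext i
      have := congrFun h' i.succ
      simpa using this
    rw [h1]

lemma TQ_le (Q n : ℕ) (hQ : 1 ≤ Q) : (TT Q n : ℝ) ≤ 2 ^ Q * NQ (Q + 1) n := by
  classical
  have hexp : (1 : ℝ) ≤ Real.exp 1 := by
    have := Real.add_one_le_exp (1 : ℝ)
    linarith
  set A : ℕ → Finset ℕ := fun d =>
    n.divisors.filter (fun d' : ℕ => d ≤ d' ∧ (d' : ℝ) ≤ Real.exp 1 * d) with hAdef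
  set B : ℕ → Finset ℕ := fun d =>
    n.divisors.filter (fun d' : ℕ => d' ≤ d ∧ (d : ℝ) ≤ Real.exp 1 * d') with hBdef
  have hAle : ∑ d ∈ n.divisors, (A d).card ^ Q ≤ NQ (Q + 1) n := by
    apply sum_pow_le_NQ
    · intro d _ x hx
      exact (Finset.mem_filter.1 hx).1
    · intro d _ x hx
      obtain ⟨_, hx1, hx2⟩ := Finset.mem_filter.1 hx
      refine ⟨hx2, ?_⟩
      have : (d : ℝ) ≤ x := by exact_mod_cast hx1
      nlinarith [Nat.cast_nonneg (α := ℝ) x]
    · intro d _ x hx y hy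
      obtain ⟨_, hx1, hx2⟩ := Finset.mem_filter.1 hx
      obtain ⟨_, hy1, hy2⟩ := Finset.mem_filter.1 hy
      have : (d : ℝ) ≤ y := by exact_mod_cast hy1
      nlinarith [Real.exp_pos 1]
  have hBle : ∑ d ∈ n.divisors, (B d).card ^ Q ≤ NQ (Q + 1) n := by
    apply sum_pow_le_NQ
    · intro d _ x hx
      exact (Finset.mem_filter.1 hx).1
    · intro d _ x hx
      obtain ⟨_, hx1, hx2⟩ := Finset.mem_filter.1 hx
      refine ⟨?_, hx2⟩
      have : (x : ℝ) ≤ d := by exact_mod_cast hx1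
      nlinarith [Nat.cast_nonneg (α := ℝ) d]
    · intro d _ x hx y hy
      obtain ⟨_, hx1, hx2⟩ := Finset.mem_filter.1 hx
      obtain ⟨_, hy1, hy2⟩ := Finset.mem_filter.1 hy
      have : (x : ℝ) ≤ d := by exact_mod_cast hx1
      linarith
  have hw : ∀ d, wn n d ≤ (A d).card + (B d).card := by
    intro d
    unfold wn
    refine le_trans (Finset.card_le_card ?_) (Finset.card_union_le _ _)
    intro x hx
    obtain ⟨hx0, hx1, hx2⟩ := Finset.mem_filter.1 hx
    rw [Finset.mem_union]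
    rcases le_total d x with h | h
    · left
      exact Finset.mem_filter.2 ⟨hx0, h, hx2⟩
    · right
      exact Finset.mem_filter.2 ⟨hx0, h, hx1⟩
  have hterm : ∀ d, wn n d ^ Q ≤ 2 ^ (Q - 1) * ((A d).card ^ Q + (B d).card ^ Q) := by
    intro d
    calc wn n d ^ Q ≤ ((A d).card + (B d).card) ^ Q := Nat.pow_le_pow_left (hw d) _
      _ ≤ 2 ^ (Q - 1) * ((A d).card ^ Q + (B d).card ^ Q) := by
          exact add_pow_le (Nat.zero_le _) (Nat.zero_le _) Q
  have hnat : TT Q n ≤ 2 ^ Q * NQ (Q + 1) n := by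
    unfold TT
    calc ∑ d ∈ n.divisors, wn n d ^ Q
        ≤ ∑ d ∈ n.divisors, 2 ^ (Q - 1) * ((A d).card ^ Q + (B d).card ^ Q) :=
          Finset.sum_le_sum (fun d _ => hterm d)
      _ = 2 ^ (Q - 1) * (∑ d ∈ n.divisors, (A d).card ^ Q + ∑ d ∈ n.divisors, (B d).card ^ Q) := by
          rw [← Finset.mul_sum, Finset.sum_add_distrib]
      _ ≤ 2 ^ (Q - 1) * (NQ (Q + 1) n + NQ (Q + 1) n) :=
          Nat.mul_le_mul_left _ (Nat.add_le_add hAle hBle)
      _ = 2 ^ Q * NQ (Q + 1) n := by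
          obtain ⟨k, rfl⟩ : ∃ k, Q = k + 1 := ⟨Q - 1, by omega⟩
          simp only [Nat.add_sub_cancel]
          rw [pow_succ]
          ring
  exact_mod_cast hnat

/-- Hölder for the power sums -/
lemma T_holder (Q n k : ℕ) (hk : k < Q) :
    (TT k n : ℝ) ≤ (n.divisors.card : ℝ) ^ (1 - (k : ℝ) / Q) * (TT Q n : ℝ) ^ ((k : ℝ) / Q) := by
  have hQ : (0 : ℝ) < Q := by exact_mod_cast (lt_of_le_of_lt (Nat.zero_le _) hk)
  rcases Nat.eq_zero_or_pos k with rfl | hkpos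
  · unfold TT
    simp
  · have hk0 : (0 : ℝ) < k := by exact_mod_cast hkpos
    have hkQ : (k : ℝ) < Q := by exact_mod_cast hk
    have hconj : Real.HolderConjugate ((Q : ℝ) / (Q - k)) ((Q : ℝ) / k) := by
      rw [Real.holderConjugate_iff]
      constructor
      · rw [lt_div_iff₀ (by linarith)]
        linarith
      · field_simp
        ring
    have h := Real.inner_le_Lp_mul_Lq n.divisors (fun _ => (1 : ℝ)) (fun d => (wn n d : ℝ) ^ k) hconj
    have e1 : (TT k n : ℝ) = ∑ d ∈ n.divisors, (1 : ℝ) * (wn n d : ℝ) ^ k := by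
      unfold TT
      push_cast
      simp
    have e2 : ∑ d ∈ n.divisors, |(1 : ℝ)| ^ ((Q : ℝ) / (Q - k)) = (n.divisors.card : ℝ) := by
      simp
    have e3 : ∑ d ∈ n.divisors, |(wn n d : ℝ) ^ k| ^ ((Q : ℝ) / k) = (TT Q n : ℝ) := by
      unfold TT
      push_cast
      apply Finset.sum_congr rfl
      intro d _
      rw [abs_of_nonneg (by positivity), ← Real.rpow_natCast, ← Real.rpow_mul (by positivity),
        mul_div_cancel₀ _ hk0.ne', Real.rpow_natCast]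
    rw [e1]
    refine le_trans h ?_
    rw [e2, e3]
    have e4 : (1 : ℝ) / ((Q : ℝ) / (Q - k)) = 1 - (k : ℝ) / Q := by
      have : (Q : ℝ) - k ≠ 0 := by linarith
      field_simp
    have e5 : (1 : ℝ) / ((Q : ℝ) / k) = (k : ℝ) / Q := by
      field_simp
    rw [e4, e5]

theorem inter : GInter := by
  intro q hq
  obtain ⟨Q, rfl⟩ : ∃ Q, q = Q + 1 := ⟨q - 1, by omega⟩
  have hQ : 1 ≤ Q := by omega
  have hQr : (0 : ℝ) < Q := by exact_mod_cast hQ
  refine ⟨4 ^ (Q + 1), by positivity, ?_⟩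
  intro n hn
  have hcardpos : (0 : ℝ) < n.divisors.card := by
    have : 0 < n.divisors.card := Finset.card_pos.2 ⟨1, Nat.one_mem_divisors.2 hn⟩
    exact_mod_cast this
  set τ : ℝ := (n.divisors.card : ℝ) with hτ
  set M : ℝ := (NQ (Q + 1) n : ℝ) with hM
  have hM0 : 0 ≤ M := by positivity
  have hcast : (((Q + 1 : ℕ) : ℝ) - 1) = Q := by push_cast; ring
  have hcast2 : (((Q + 1 : ℕ) : ℝ) - 2) = Q - 1 := by push_cast; ring
  rw [hcast, hcast2]
  have hTQ := TQ_le Q n hQ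
  have hTQ0 : (0 : ℝ) ≤ (TT Q n : ℝ) := by positivity
  have hα : (0 : ℝ) ≤ ((Q : ℝ) - 1) / Q := by
    apply div_nonneg _ hQr.le
    have : (1 : ℝ) ≤ Q := by exact_mod_cast hQ
    linarith
  have hα1 : ((Q : ℝ) - 1) / Q ≤ 1 := by
    rw [div_le_one hQr]
    linarith
  have hTQ' : (TT Q n : ℝ) ^ (((Q : ℝ) - 1) / Q) ≤ 2 ^ Q * M ^ (((Q : ℝ) - 1) / Q) := by
    calc (TT Q n : ℝ) ^ (((Q : ℝ) - 1) / Q) ≤ (2 ^ Q * M) ^ (((Q : ℝ) - 1) / Q) :=
          Real.rpow_le_rpow hTQ0 hTQ hα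
      _ = (2 ^ Q : ℝ) ^ (((Q : ℝ) - 1) / Q) * M ^ (((Q : ℝ) - 1) / Q) :=
          Real.mul_rpow (by positivity) hM0
      _ ≤ (2 ^ Q : ℝ) ^ (1 : ℝ) * M ^ (((Q : ℝ) - 1) / Q) := by
          apply mul_le_mul_of_nonneg_right _ (Real.rpow_nonneg hM0 _)
          apply Real.rpow_le_rpow_of_exponent_le _ hα1
          exact one_le_pow₀ (by norm_num)
      _ = 2 ^ Q * M ^ (((Q : ℝ) - 1) / Q) := by rw [Real.rpow_one]
  have hprod : ∀ j ∈ Ico 1 (Q + 1), (TT (j - 1) n : ℝ) * (TT (Q + 1 - j - 1) n : ℝ)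
      ≤ 2 ^ Q * (τ ^ (((Q + 1 : ℕ) : ℝ) / Q) * M ^ (((Q : ℝ) - 1) / Q)) := by
    intro j hj
    rw [Finset.mem_Ico] at hj
    have ha := T_holder Q n (j - 1) (by omega)
    have hb := T_holder Q n (Q + 1 - j - 1) (by omega)
    have hsum : ((j - 1 : ℕ) : ℝ) + ((Q + 1 - j - 1 : ℕ) : ℝ) = Q - 1 := by
      have : (j - 1) + (Q + 1 - j - 1) + 1 = Q := by omega
      have h2 : (((j - 1) + (Q + 1 - j - 1) + 1 : ℕ) : ℝ) = Q := by exact_mod_cast this
      push_cast at h2 ⊢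
      linarith
    set x : ℝ := ((j - 1 : ℕ) : ℝ) with hx
    set y : ℝ := ((Q + 1 - j - 1 : ℕ) : ℝ) with hy
    have hx0 : 0 ≤ x := by positivity
    have hy0 : 0 ≤ y := by positivity
    calc (TT (j - 1) n : ℝ) * (TT (Q + 1 - j - 1) n : ℝ)
        ≤ (τ ^ (1 - x / Q) * (TT Q n : ℝ) ^ (x / Q)) * (τ ^ (1 - y / Q) * (TT Q n : ℝ) ^ (y / Q)) :=
          mul_le_mul ha hb (by positivity) (by positivity)
      _ = (τ ^ (1 - x / Q) * τ ^ (1 - y / Q)) * ((TT Q n : ℝ) ^ (x / Q) * (TT Q n : ℝ) ^ (y / Q)) := by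
          ring
      _ = τ ^ (((Q + 1 : ℕ) : ℝ) / Q) * (TT Q n : ℝ) ^ (((Q : ℝ) - 1) / Q) := by
          rw [← Real.rpow_add hcardpos, ← Real.rpow_add_of_nonneg hTQ0 (by positivity) (by positivity)]
          have e1 : 1 - x / Q + (1 - y / Q) = ((Q + 1 : ℕ) : ℝ) / Q := by
            push_cast
            field_simp
            linarith
          have e2 : x / Q + y / Q = ((Q : ℝ) - 1) / Q := by
            rw [← add_div, hsum]
          rw [e1, e2]
      _ ≤ τ ^ (((Q + 1 : ℕ) : ℝ) / Q) * (2 ^ Q * M ^ (((Q : ℝ) - 1) / Q)) :=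
          mul_le_mul_of_nonneg_left hTQ' (by positivity)
      _ = 2 ^ Q * (τ ^ (((Q + 1 : ℕ) : ℝ) / Q) * M ^ (((Q : ℝ) - 1) / Q)) := by ring
  set P : ℝ := τ ^ (((Q + 1 : ℕ) : ℝ) / Q) * M ^ (((Q : ℝ) - 1) / Q) with hP
  have hP0 : 0 ≤ P := by positivity
  calc ∑ j ∈ Ico 1 (Q + 1), ((Q + 1).choose j : ℝ) * (TT (j - 1) n * TT (Q + 1 - j - 1) n)
      ≤ ∑ j ∈ Ico 1 (Q + 1), ((Q + 1).choose j : ℝ) * (2 ^ Q * P) := by
        apply Finset.sum_le_sum
        intro j hj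
        exact mul_le_mul_of_nonneg_left (hprod j hj) (by positivity)
    _ = (∑ j ∈ Ico 1 (Q + 1), ((Q + 1).choose j : ℝ)) * (2 ^ Q * P) := by
        rw [Finset.sum_mul]
    _ ≤ 2 ^ (Q + 1) * (2 ^ Q * P) := by
        apply mul_le_mul_of_nonneg_right _ (by positivity)
        have h1 : ∑ j ∈ Ico 1 (Q + 1), ((Q + 1).choose j : ℝ)
            ≤ ∑ j ∈ range (Q + 1 + 1), ((Q + 1).choose j : ℝ) := by
          apply Finset.sum_le_sum_of_subset_of_nonneg
          · intro j hj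
            rw [Finset.mem_Ico] at hj
            rw [Finset.mem_range]
            omega
          · intro j _ _
            positivity
        refine le_trans h1 ?_
        have h2 := Nat.sum_range_choose (Q + 1)
        have h3 : (∑ j ∈ range (Q + 1 + 1), ((Q + 1).choose j : ℝ)) = (2 : ℝ) ^ (Q + 1) := by
          exact_mod_cast h2
        rw [h3]
    _ ≤ 4 ^ (Q + 1) * P := by
        have e : (2 : ℝ) ^ (Q + 1) * (2 ^ Q * P) = (2 ^ (Q + 1) * 2 ^ Q) * P := by ring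
        rw [e]
        apply mul_le_mul_of_nonneg_right _ hP0
        have e4 : (4 : ℝ) ^ (Q + 1) = 2 ^ (Q + 1) * 2 ^ (Q + 1) := by
          rw [← mul_pow]
          norm_num
        rw [e4]
        apply mul_le_mul_of_nonneg_left _ (by positivity)
        exact pow_le_pow_right₀ (by norm_num) (Nat.le_succ Q)
    _ = 4 ^ (Q + 1) * τ ^ (((Q + 1 : ℕ) : ℝ) / Q) * M ^ (((Q : ℝ) - 1) / Q) := by
        rw [hP]
        ring

end Pool.Agent.Helper85.Lang
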